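import Pool.Agent.Helper45.FL2.Loc4
import Pool.Agent.Helper81.FL2.LocC

/-!
# FL2-G1 LOC: all statements of section G1 in one namespace
-/

open CategoryTheory MonoidalCategory Opposite HomotopicalAlgebra Limits

set_option autoImplicit false

namespace Pool.Agent.Helper45.LOC

open FL

section

variable {A : Type} [SmallCategory A] {X : SP A}

theorem loc_tensor (hX : InjFib X) {P Q : SP A} (f : P ⟶ Q) (h : Loc X f) (K : SSet.{0}) :
    Loc X (tnMap f (𝟙 K)) := Pool.Agent.Helper55.FL2.loc_tensor hX f h K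

/-- Elementwise criterion for pushout squares. -/
theorem isPushout_of_elem {P Q P' Q' : SP A} (i : P ⟶ Q) (u : P ⟶ P') (v : Q ⟶ Q')
    (i' : P' ⟶ Q') (w : i ≫ v = u ≫ i')
    (hi : ∀ a k, Function.Injective ((i.app a).app k))
    (hi' : ∀ a k, Function.Injective ((i'.app a).app k))
    (hinj : ∀ a k (x y : (Q.obj a).obj k), x ∉ Set.range ((i.app a).app k) →
      y ∉ Set.range ((i.app a).app k) → (v.app a).app k x = (v.app a).app k y → x = y)
    (hdis : ∀ a k (x : (Q.obj a).obj k), x ∉ Set.range ((i.app a).app k) →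
      (v.app a).app k x ∉ Set.range ((i'.app a).app k))
    (hsurj : ∀ a k (z : (Q'.obj a).obj k), z ∈ Set.range ((v.app a).app k) ∨
      z ∈ Set.range ((i'.app a).app k)) : IsPushout i u v i' :=
  Pool.Agent.Helper55.FL2.isPushout_of_elem i u v i' w hi hi' hinj hdis hsurj

/-- Locality can be checked after restriction along a monomorphism. -/
theorem locT_comap {P Q : SP A} (f : P ⟶ Q) (hf : ∀ a, Mono (f.app a)) (S T : Sb Q)
    (hST : S ≤ T) (hT : T ≤ Sb.range f) : LocT X (S.comap f) (T.comap f) ↔ LocT X S T :=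
  Pool.Agent.Helper81.FL2.locT_comap f hf S T hST hT

/-- A monomorphism is local if and only if its image is. -/
theorem loc_iff_range {P Q : SP A} (f : P ⟶ Q) (hf : ∀ a, Mono (f.app a)) :
    Loc X f ↔ LocT X (Sb.range f) ⊤ := Pool.Agent.Helper81.FL2.loc_iff_range f hf

end

end Pool.Agent.Helper45.LOC
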