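import Pool.Agent.Helper58.FL2.Loc
import Pool.Agent.Helper88.FL.Htpy
import Pool.Agent.Helper45.FL.Triv
import Pool.Agent.Helper85.FL.FL3
import Pool.Agent.Helper83.FL.MpFibFinal
import Pool.Agent.Helper36.FL.Cyl
import Pool.Agent.Helper46.FL.PreHo

/-!
# FL2-G1 LOC, part 1: calculus of local maps
-/

open CategoryTheory MonoidalCategory Opposite HomotopicalAlgebra

set_option autoImplicit false

namespace Pool.Agent.Helper45.LOC

open FL

section

variable {A : Type} [SmallCategory A] {X : SP A}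

theorem pre_comp {P Q R : SP A} (f : P ⟶ Q) (g : Q ⟶ R) :
    Mp.pre (f ≫ g) X = Mp.pre g X ≫ Mp.pre f X := rfl

theorem pre_id (P : SP A) : Mp.pre (𝟙 P) X = 𝟙 _ := rfl

/-- An isomorphism of mapping spaces. -/
def preIso {P Q : SP A} (e : P ≅ Q) (X : SP A) : Mp Q X ≅ Mp P X where
  hom := Mp.pre e.hom X
  inv := Mp.pre e.inv X
  hom_inv_id := by rw [← pre_comp, e.inv_hom_id, pre_id]
  inv_hom_id := by rw [← pre_comp, e.hom_inv_id, pre_id]

theorem loc_of_isIso {P Q : SP A} (f : P ⟶ Q) [IsIso f] : Loc X f := by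
  have : IsIso (Mp.pre f X) := inferInstanceAs (IsIso (preIso (asIso f) X).hom)
  exact Pool.Agent.Helper88.FL.hoEq_of_isIso _

theorem loc_of_arrow_iso {P Q P' Q' : SP A} {f : P ⟶ Q} {f' : P' ⟶ Q'} (e : P ≅ P')
    (e' : Q ≅ Q') (h : f ≫ e'.hom = e.hom ≫ f') (hf : Loc X f) : Loc X f' := by
  refine Pool.Agent.Helper88.FL.hoEq_of_arrow_iso (preIso e'.symm X) (preIso e.symm X) ?_ hf
  change Mp.pre f X ≫ Mp.pre e.inv X = Mp.pre e'.inv X ≫ Mp.pre f' X
  rw [← pre_comp, ← pre_comp]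
  congr 1
  rw [Iso.inv_comp_eq, ← Category.assoc, ← h, Category.assoc, e'.hom_inv_id, Category.comp_id]

theorem loc_comp (hX : InjFib X) {P Q R : SP A} {f : P ⟶ Q} {g : Q ⟶ R} (hf : Loc X f)
    (hg : Loc X g) : Loc X (f ≫ g) :=
  Pool.Agent.Helper88.FL.hoEq_comp (Pool.Agent.Helper83.FL4.Mp_kan R hX) (Pool.Agent.Helper83.FL4.Mp_kan Q hX)
    (Pool.Agent.Helper83.FL4.Mp_kan P hX) hg hf

theorem loc_of_comp_left (hX : InjFib X) {P Q R : SP A} {f : P ⟶ Q} {g : Q ⟶ R}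
    (hf : Loc X f) (hfg : Loc X (f ≫ g)) : Loc X g :=
  Pool.Agent.Helper88.FL.hoEq_of_comp_right (Pool.Agent.Helper83.FL4.Mp_kan R hX)
    (Pool.Agent.Helper83.FL4.Mp_kan Q hX) (Pool.Agent.Helper83.FL4.Mp_kan P hX) hf hfg

theorem loc_of_comp_right (hX : InjFib X) {P Q R : SP A} {f : P ⟶ Q} {g : Q ⟶ R}
    (hg : Loc X g) (hfg : Loc X (f ≫ g)) : Loc X f :=
  Pool.Agent.Helper88.FL.hoEq_of_comp_left (Pool.Agent.Helper83.FL4.Mp_kan R hX)
    (Pool.Agent.Helper83.FL4.Mp_kan Q hX) (Pool.Agent.Helper83.FL4.Mp_kan P hX) hg hfg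

theorem loc_of_we (hX : InjFib X) {P Q : SP A} (f : P ⟶ Q) (hf : ∀ a, WE (f.app a)) :
    Loc X f :=
  Pool.Agent.Helper46.FLb.Mp_pre_hoEq
    (fun {_ _ _} hX hY hZ {_ _} hf hg => Pool.Agent.Helper88.FL.hoEq_comp hX hY hZ hf hg)
    (fun {_ _ _} h => Pool.Agent.Helper45.FL2.TrivFib.hoEq h)
    (fun {_ _ _} h => Helper85FL.we_of_hoEq h)
    (fun {_ _ _ _ _} h h' => Helper85FL.we_of_comp_right h h')
    (fun P {_} hZ => Pool.Agent.Helper83.FL4.Mp_kan P hZ)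
    (fun {_ _ _} i hi hZ => Pool.Agent.Helper83.FL4.Mp_pre_trivFib i hi hZ)
    (fun {_ _} f => Pool.Agent.Helper36.FL.exists_cyl f)
    (fun {_ _ _} h Z => Pool.Agent.Helper36.FL.SDR.pre_hoEq h Z)
    (fun {_ _ _} h a => Pool.Agent.Helper36.FL.SDR.app_hoEq h a) f hf hX

theorem loc_of_sdr {P Q : SP A} {f : P ⟶ Q} (hf : SDR f) : Loc X f :=
  Pool.Agent.Helper36.FL.SDR.pre_hoEq hf X

theorem loc_iff_trivFib (hX : InjFib X) {P Q : SP A} (i : P ⟶ Q) (hi : ∀ a, Mono (i.app a)) :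
    Loc X i ↔ TrivFib (Mp.pre i X) :=
  ⟨fun h => Pool.Agent.Helper45.FL2.trivFib_of_hoEq (Pool.Agent.Helper83.FL4.Mp_kan Q hX)
    (Pool.Agent.Helper83.FL4.Mp_kan P hX) (Pool.Agent.Helper83.FL4.Mp_pre_kanFib i hi hX) h,
    fun h => Pool.Agent.Helper45.FL2.TrivFib.hoEq h⟩

/-- The strict map given by a vertex of the mapping space. -/
def toHom {P Q : SP A} (φ : MpS P Q (SimplexCategory.mk 0)) : P ⟶ Q where
  app a :=
    { app := fun k => ↾ fun x => φ.app a k (SimplexCategory.const k.unop (SimplexCategory.mk 0) 0) x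
      naturality := fun k l α => by
        refine ConcreteCategory.hom_ext _ _ fun x => ?_
        exact φ.nat_right a α (SimplexCategory.const k.unop (SimplexCategory.mk 0) 0) x }
  naturality a b g := by
    refine NatTrans.ext (funext fun k => ?_)
    refine ConcreteCategory.hom_ext _ _ fun x => ?_
    exact φ.nat_left g k (SimplexCategory.const k.unop (SimplexCategory.mk 0) 0) x

theorem toHom_ofHom {P Q : SP A} (f : P ⟶ Q) : toHom (MpS.ofHom (SimplexCategory.mk 0) f) = f := rfl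

/-- A trivial fibration has a section. -/
theorem exists_section {E B : SSet.{0}} {p : E ⟶ B} (hp : TrivFib p) : ∃ s : B ⟶ E, s ≫ p = 𝟙 B := by
  have h1 := Pool.Agent.Helper45.FL2.TrivFib.lift hp (⊥ : B.Subcomplex).ι
  have sq : CommSq (SSet.Subcomplex.isInitialBot.to E) (⊥ : B.Subcomplex).ι p (𝟙 B) :=
    ⟨SSet.Subcomplex.isInitialBot.hom_ext _ _⟩
  exact ⟨sq.lift, sq.fac_right⟩

theorem loc_extend (hX : InjFib X) {P Q : SP A} (i : P ⟶ Q) (hi : ∀ a, Mono (i.app a))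
    (h : Loc X i) (g : P ⟶ X) : ∃ g' : Q ⟶ X, i ≫ g' = g := by
  obtain ⟨s, hs⟩ := exists_section ((loc_iff_trivFib hX i hi).1 h)
  have h1 : (MpS.ofHom (SimplexCategory.mk 0) i).comp
      (s.app (op (SimplexCategory.mk 0)) (MpS.ofHom (SimplexCategory.mk 0) g) :
        MpS Q X (SimplexCategory.mk 0)) = MpS.ofHom (SimplexCategory.mk 0) g :=
    ConcreteCategory.congr_hom (NatTrans.congr_app hs (op (SimplexCategory.mk 0)))
      (MpS.ofHom (SimplexCategory.mk 0) g)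
  exact ⟨toHom (s.app (op (SimplexCategory.mk 0)) (MpS.ofHom (SimplexCategory.mk 0) g) :
        MpS Q X (SimplexCategory.mk 0)), congrArg toHom h1⟩

end

end Pool.Agent.Helper45.LOC
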