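import Pool.Agent.Helper45.FL2.Loc1
import Pool.Agent.Helper54.FL2.Fib

/-!
# FL2-G1 LOC, part 3: pushouts of local maps, the gluing lemma
-/

open CategoryTheory MonoidalCategory Opposite HomotopicalAlgebra Limits

set_option autoImplicit false

namespace Pool.Agent.Helper45.LOC

open FL

section

variable {A : Type} [SmallCategory A] {X : SP A}

theorem isPushout_tn {P Q P' Q' : SP A} {i : P ⟶ Q} {u : P ⟶ P'} {v : Q ⟶ Q'} {i' : P' ⟶ Q'}
    (sq : IsPushout i u v i') (K : SSet.{0}) :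
    IsPushout (tnMap i (𝟙 K)) (tnMap u (𝟙 K)) (tnMap v (𝟙 K)) (tnMap i' (𝟙 K)) := by
  have e : ∀ {R S : SP A} (f : R ⟶ S),
      ((Functor.whiskeringRight Aᵒᵖ SSet.{0} SSet.{0}).obj (tensorRight K)).map f = tnMap f (𝟙 K) := by
    intro R S f
    refine NatTrans.ext (funext fun a => ?_)
    exact (tensorHom_id (f.app a) K).symm
  have h := sq.map ((Functor.whiskeringRight Aᵒᵖ SSet.{0} SSet.{0}).obj (tensorRight K))
  rw [e i, e u, e v, e i'] at h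
  exact h

/-- Mapping spaces turn pushouts into pullbacks. -/
theorem isPullback_pre {P Q P' Q' : SP A} {i : P ⟶ Q} {u : P ⟶ P'} {v : Q ⟶ Q'} {i' : P' ⟶ Q'}
    (sq : IsPushout i u v i') (X : SP A) :
    IsPullback (Mp.pre v X) (Mp.pre i' X) (Mp.pre i X) (Mp.pre u X) := by
  have w : Mp.pre v X ≫ Mp.pre i X = Mp.pre i' X ≫ Mp.pre u X := by
    rw [← pre_comp, ← pre_comp, sq.w]
  refine ⟨⟨w⟩, ⟨PullbackCone.IsLimit.mk w
    (fun s => Mp.adj.symm ((isPushout_tn sq s.pt).desc (Mp.adj s.fst) (Mp.adj s.snd) ?_)) ?_ ?_ ?_⟩⟩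
  · exact congrArg Mp.adj s.condition
  · intro s
    refine Mp.adj.injective ?_
    refine (Mp.adj_pre v _).trans ?_
    rw [Equiv.apply_symm_apply]
    exact (isPushout_tn sq s.pt).inl_desc _ _ _
  · intro s
    refine Mp.adj.injective ?_
    refine (Mp.adj_pre i' _).trans ?_
    rw [Equiv.apply_symm_apply]
    exact (isPushout_tn sq s.pt).inr_desc _ _ _
  · intro s m h1 h2
    refine Mp.adj.injective ?_
    rw [Equiv.apply_symm_apply]
    refine (isPushout_tn sq s.pt).hom_ext ?_ ?_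
    · refine Eq.trans ?_ ((isPushout_tn sq s.pt).inl_desc _ _ _).symm
      exact (Mp.adj_pre v m).symm.trans (congrArg Mp.adj h1)
    · refine Eq.trans ?_ ((isPushout_tn sq s.pt).inr_desc _ _ _).symm
      exact (Mp.adj_pre i' m).symm.trans (congrArg Mp.adj h2)

/-- Base change of trivial fibrations. -/
theorem trivFib_of_isPullback {E B E' B' : SSet.{0}} {f : E' ⟶ E} {p' : E' ⟶ B'} {p : E ⟶ B}
    {g : B' ⟶ B} (sq : IsPullback f p' p g) (hp : TrivFib p) : TrivFib p' := by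
  intro n
  have := hp n
  constructor
  intro t b h
  have h2 : CommSq (t ≫ f) ((SSet.boundary n).ι) p (b ≫ g) :=
    ⟨by rw [Category.assoc, sq.w, ← Category.assoc, h.w, Category.assoc]⟩
  refine ⟨⟨⟨sq.lift h2.lift b h2.fac_right, ?_, sq.lift_snd _ _ _⟩⟩⟩
  refine sq.hom_ext ?_ ?_
  · rw [Category.assoc, sq.lift_fst, h2.fac_left]
  · rw [Category.assoc, sq.lift_snd, h.w]

theorem loc_pushout (hX : InjFib X) {P Q P' Q' : SP A} {i : P ⟶ Q} {u : P ⟶ P'} {v : Q ⟶ Q'}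
    {i' : P' ⟶ Q'} (sq : IsPushout i u v i') (hi : ∀ a, Mono (i.app a)) (h : Loc X i) :
    Loc X i' :=
  Pool.Agent.Helper45.FL2.TrivFib.hoEq
    (trivFib_of_isPullback (isPullback_pre sq X) ((loc_iff_trivFib hX i hi).1 h))

theorem isPullback_Fp {E E' B : SSet.{0}} (p : E ⟶ B) (q : E' ⟶ B) :
    IsPullback (Fp.fst p q) (Fp.snd p q) p q :=
  ⟨⟨Pool.Agent.Helper54.FL2.Fp_w p q⟩, ⟨PullbackCone.IsLimit.mk _
    (fun s => Fp.lift s.fst s.snd s.condition)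
    (fun s => Pool.Agent.Helper54.FL2.Fp_lift_fst s.fst s.snd s.condition)
    (fun s => Pool.Agent.Helper54.FL2.Fp_lift_snd s.fst s.snd s.condition)
    (fun s _ h1 h2 => Pool.Agent.Helper54.FL2.Fp_ext
      (h1.trans (Pool.Agent.Helper54.FL2.Fp_lift_fst s.fst s.snd s.condition).symm)
      (h2.trans (Pool.Agent.Helper54.FL2.Fp_lift_snd s.fst s.snd s.condition).symm))⟩⟩

/-- The gluing lemma. -/
theorem loc_glue (hX : InjFib X) {P Q P' Q' P₁ Q₁ P₁' Q₁' : SP A}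
    {i : P ⟶ Q} {u : P ⟶ P'} {v : Q ⟶ Q'} {i' : P' ⟶ Q'} (sq : IsPushout i u v i')
    {i₁ : P₁ ⟶ Q₁} {u₁ : P₁ ⟶ P₁'} {v₁ : Q₁ ⟶ Q₁'} {i₁' : P₁' ⟶ Q₁'}
    (sq₁ : IsPushout i₁ u₁ v₁ i₁') (hi : ∀ a, Mono (i.app a)) (hi₁ : ∀ a, Mono (i₁.app a))
    (p : P ⟶ P₁) (q : Q ⟶ Q₁) (p' : P' ⟶ P₁') (q' : Q' ⟶ Q₁')
    (h1 : i ≫ q = p ≫ i₁) (h2 : u ≫ p' = p ≫ u₁) (h3 : v ≫ q' = q ≫ v₁)
    (h4 : i' ≫ q' = p' ≫ i₁')
    (hp : Loc X p) (hq : Loc X q) (hp' : Loc X p') : Loc X q' := by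
  have w1 : Mp.pre p' X ≫ Mp.pre u X = Mp.pre u₁ X ≫ Mp.pre p X := by
    rw [← pre_comp, ← pre_comp, h2]
  have w2 : Mp.pre q X ≫ Mp.pre i X = Mp.pre i₁ X ≫ Mp.pre p X := by
    rw [← pre_comp, ← pre_comp, h1]
  have key := Pool.Agent.Helper54.FL2.Fp_map_hoEq (Pool.Agent.Helper83.FL4.Mp_kan P₁ hX)
    (Pool.Agent.Helper83.FL4.Mp_kan P hX) (Pool.Agent.Helper83.FL4.Mp_kan P₁' hX)
    (Pool.Agent.Helper83.FL4.Mp_kan P' hX) (Pool.Agent.Helper83.FL4.Mp_kan Q₁ hX)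
    (Pool.Agent.Helper83.FL4.Mp_kan Q hX) (Pool.Agent.Helper83.FL4.Mp_pre_kanFib i₁ hi₁ hX)
    (Pool.Agent.Helper83.FL4.Mp_pre_kanFib i hi hX) (Mp.pre p' X) (Mp.pre q X) (Mp.pre p X)
    w1 w2 hp' hq hp
  have pb := isPullback_pre sq X
  have pb₁ := isPullback_pre sq₁ X
  have pf := (isPullback_Fp (Mp.pre u X) (Mp.pre i X)).flip
  have pf₁ := (isPullback_Fp (Mp.pre u₁ X) (Mp.pre i₁ X)).flip
  refine Pool.Agent.Helper88.FL.hoEq_of_arrow_iso (pf₁.isoIsPullback _ _ pb₁)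
    (pf.isoIsPullback _ _ pb) ?_ key
  refine pb.hom_ext ?_ ?_
  · rw [Category.assoc, IsPullback.isoIsPullback_hom_fst, Category.assoc, ← pre_comp, h3, pre_comp,
      ← Category.assoc, IsPullback.isoIsPullback_hom_fst]
    rfl
  · rw [Category.assoc, IsPullback.isoIsPullback_hom_snd, Category.assoc, ← pre_comp, h4, pre_comp,
      ← Category.assoc, IsPullback.isoIsPullback_hom_snd]
    rfl

theorem loc_pushout' (hX : InjFib X) {P Q P' Q' : SP A} {i : P ⟶ Q} {u : P ⟶ P'} {v : Q ⟶ Q'}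
    {i' : P' ⟶ Q'} (sq : IsPushout i u v i') (hi : ∀ a, Mono (i.app a)) (h : Loc X u) :
    Loc X v := by
  have h0 : IsPushout i (𝟙 P) (𝟙 Q) i :=
    IsPushout.of_vert_isIso ⟨by rw [Category.comp_id, Category.id_comp]⟩
  exact loc_glue hX h0 sq hi hi (𝟙 P) (𝟙 Q) u v (by rw [Category.comp_id, Category.id_comp]) rfl rfl
    sq.w (loc_of_isIso _) (loc_of_isIso _) h

end

end Pool.Agent.Helper45.LOC
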