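import Pool.Agent.Helper45.FL2.Loc3
import Pool.Agent.Helper55.FL2.LocTensor

/-!
# FL2-G1 LOC, part 4: local inclusions of sub-presheaves
-/

open CategoryTheory MonoidalCategory Opposite HomotopicalAlgebra Limits

set_option autoImplicit false

namespace Pool.Agent.Helper45.LOC

open FL

section

variable {A : Type} [SmallCategory A] {X : SP A}

theorem inj_ofLE {P : SP A} {S T : Sb P} (h : S ≤ T) (a : Aᵒᵖ) (k : SimplexCategoryᵒᵖ) :
    Function.Injective (((Sb.ofLE h).app a).app k) := by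
  intro x y hxy
  have h2 := congrArg (fun z : { x : (P.obj a).obj k // x ∈ T.mem a k } => z.1) hxy
  exact Subtype.ext h2

theorem mono_ofLE {P : SP A} {S T : Sb P} (h : S ≤ T) (a : Aᵒᵖ) : Mono ((Sb.ofLE h).app a) := by
  have : ∀ k, Mono (((Sb.ofLE h).app a).app k) := fun k => (mono_iff_injective _).2 (inj_ofLE h a k)
  exact NatTrans.mono_of_mono_app _

theorem locT_refl {P : SP A} (S : Sb P) : LocT X S S := by
  refine ⟨le_refl S, ?_⟩
  have h : Sb.ofLE (le_refl S) = 𝟙 S.toSP := rfl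
  rw [h]
  exact loc_of_isIso _

theorem locT_trans (hX : InjFib X) {P : SP A} {S T U : Sb P} (h : LocT X S T)
    (h' : LocT X T U) : LocT X S U := by
  obtain ⟨a, ha⟩ := h
  obtain ⟨b, hb⟩ := h'
  exact ⟨a.trans b, loc_comp hX ha hb⟩

theorem locT_cancel (hX : InjFib X) {P : SP A} {S T U : Sb P} (h : LocT X S T)
    (h' : LocT X S U) (hTU : T ≤ U) : LocT X T U := by
  obtain ⟨a, ha⟩ := h
  obtain ⟨b, hb⟩ := h'
  exact ⟨hTU, loc_of_comp_left hX (g := Sb.ofLE hTU) ha hb⟩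

theorem locT_cancel' (hX : InjFib X) {P : SP A} {S T U : Sb P} (h : LocT X T U)
    (h' : LocT X S U) (hST : S ≤ T) : LocT X S T := by
  obtain ⟨a, ha⟩ := h
  obtain ⟨b, hb⟩ := h'
  exact ⟨hST, loc_of_comp_right hX (f := Sb.ofLE hST) ha hb⟩

/-- Unions of sub-presheaves are pushouts. -/
theorem isPushout_sup {P : SP A} (S T : Sb P) :
    IsPushout (Sb.ofLE (inf_le_right : S ⊓ T ≤ T)) (Sb.ofLE (inf_le_left : S ⊓ T ≤ S))
      (Sb.ofLE (le_sup_right : T ≤ S ⊔ T)) (Sb.ofLE (le_sup_left : S ≤ S ⊔ T)) := by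
  refine Pool.Agent.Helper55.FL2.isPushout_of_elem _ _ _ _ rfl (inj_ofLE _) (inj_ofLE _) ?_ ?_ ?_
  · intro a k x y _ _ h
    exact inj_ofLE _ a k h
  · rintro a k x hx ⟨y, hy⟩
    refine hx ⟨⟨x.1, ?_, x.2⟩, rfl⟩
    have h : y.1 = x.1 :=
      congrArg (fun z : { x : (P.obj a).obj k // x ∈ (S ⊔ T).mem a k } => z.1) hy
    rw [← h]
    exact y.2
  · rintro a k ⟨z, hz⟩
    rcases hz with hz | hz
    · exact Or.inr ⟨⟨z, hz⟩, rfl⟩
    · exact Or.inl ⟨⟨z, hz⟩, rfl⟩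

theorem locT_push (hX : InjFib X) {P : SP A} {S T : Sb P} (h : LocT X (S ⊓ T) T) :
    LocT X S (S ⊔ T) := by
  obtain ⟨_, ha⟩ := h
  exact ⟨le_sup_left, loc_pushout hX (isPushout_sup S T) (mono_ofLE _) ha⟩

/-- The gluing lemma for unions of sub-presheaves. -/
theorem loc_restr_sup (hX : InjFib X) {P Q : SP A} (f : P ⟶ Q) (S T : Sb P) (S' T' : Sb Q)
    (hS : ∀ (a : Aᵒᵖ) (k : SimplexCategoryᵒᵖ) (x : (P.obj a).obj k),
      x ∈ S.mem a k → (f.app a).app k x ∈ S'.mem a k)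
    (hT : ∀ (a : Aᵒᵖ) (k : SimplexCategoryᵒᵖ) (x : (P.obj a).obj k),
      x ∈ T.mem a k → (f.app a).app k x ∈ T'.mem a k)
    (h1 : Loc X (Sb.restr f S S' hS)) (h2 : Loc X (Sb.restr f T T' hT))
    (h12 : Loc X (Sb.restr f (S ⊓ T) (S' ⊓ T') fun a k x hx => ⟨hS a k x hx.1, hT a k x hx.2⟩)) :
    Loc X (Sb.restr f (S ⊔ T) (S' ⊔ T') fun a k x hx =>
      hx.elim (fun h => Or.inl (hS a k x h)) fun h => Or.inr (hT a k x h)) :=
  loc_glue hX (isPushout_sup S T) (isPushout_sup S' T') (mono_ofLE _) (mono_ofLE _) _ _ _ _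
    rfl rfl rfl rfl h12 h2 h1

end

end Pool.Agent.Helper45.LOC
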